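import Pool.Agent.H207.TF.Stm2
import Pool.Graph.R_seed8.H792R2.CE.D7

/-!
# Project TF (helper207), brick INV0 (helper650): invariant Cauchy series vanish

Adapted from `Pool/Graph/R_seed8/H792R2/CE/D7.lean`.
-/

set_option autoImplicit false

open Metric Set MeasureTheory Filter Topology Polynomial
open scoped OnePoint ENNReal

namespace Pool.Agent.H650.TF207

open Pool.Agent.H792R2.CE Pool.Agent.H207.TF

theorem t_INV0 : Pool.Agent.H207.TF.S_INV0 := by
  classical
  intro P Q d hd hPQ hPd hQd hN α v M hαn hM hm0 hm1 hm2 hinv A₀ hA₀o hA₀d hwand hvol p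
  obtain ⟨g, hg⟩ : ∃ g, g = rf P Q := ⟨_, rfl⟩
  rw [← hg] at hwand
  have hker := D3a_kernel
  obtain ⟨hφm, hφi⟩ := D3c_int hαn hM hker hm0 hm1 hm2
  have hgm : Measurable g := by rw [hg]; exact rf_measurable P Q
  -- the pointwise inequality
  have hineq : ∀ᵐ x : ℂ, ‖phi α v x‖ₑ ≤ ∑ w ∈ (P - C x * Q).roots.toFinset,
      ‖Q.eval w ^ 4 / (wr P Q).eval w ^ 2‖ₑ * ‖phi α v w‖ₑ := by
    filter_upwards [hinv] with x hx
    rw [hx]
    refine (enorm_sum_le _ _).trans (le_of_eq ?_)
    exact Finset.sum_congr rfl fun w _ => enorm_mul _ _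
  -- the measure
  set m : Measure ℂ := volume.withDensity (fun x => ‖phi α v x‖ₑ) with hm
  have hφe : Measurable fun x => ‖phi α v x‖ₑ := hφm.enorm
  have hfinm : IsFiniteMeasure m := by
    refine isFiniteMeasure_withDensity hφi
  have hmono : ∀ A, MeasurableSet A → m A ≤ m (g ⁻¹' A) := by
    intro A hA
    rw [hm, withDensity_apply _ hA, withDensity_apply _ (hgm hA)]
    refine (lintegral_mono_ae (ae_restrict_of_ae hineq)).trans ?_
    have := D4_area hPQ hN hφe hA
    rw [← hg] at this
    exact this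
  have hmz : m A₀ = 0 := by
    set Gd : Set ℂ := {x | ∃ U : Set ℂ, x ∈ U ∧ IsOpen U ∧ ∀ y ∈ U, ∀ k, 0 < k → g^[k] y ∉ U}
      with hGd
    have h1 : m Gd = 0 := by
      refine measure_null_of_locally_null Gd fun x hx => ?_
      obtain ⟨U, hxU, hU, hw⟩ := hx
      exact ⟨U, mem_nhdsWithin_of_mem_nhds (hU.mem_nhds hxU),
        D5_null hgm hmono hU.measurableSet hw⟩
    have h2 : m (A₀ \ Gd) = 0 := by
      have h3 : volume (A₀ \ Gd) = 0 := by
        refine measure_mono_null ?_ (ae_iff.1 hwand)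
        rintro x ⟨hx1, hx2⟩
        simp only [Set.mem_setOf_eq, Classical.not_imp]
        exact ⟨hx1, hx2⟩
      exact (withDensity_absolutelyContinuous _ _) h3
    have h4 : m A₀ ≤ m Gd + m (A₀ \ Gd) := by
      refine (measure_mono ?_).trans (measure_union_le _ _)
      intro x hx
      by_cases h : x ∈ Gd
      · exact Or.inl h
      · exact Or.inr ⟨hx, h⟩
    rw [h1, h2, add_zero] at h4
    exact nonpos_iff_eq_zero.1 h4
  -- the points off the closure of the poles
  set A₁ : Set ℂ := A₀ ∩ (closure (Set.range v))ᶜ with hA₁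
  have hco : IsOpen (closure (Set.range v))ᶜ := isClosed_closure.isOpen_compl
  have hcd : Dense (closure (Set.range v))ᶜ := by
    rw [← interior_eq_empty_iff_dense_compl]
    by_contra hne
    have h1 := isOpen_interior.measure_pos volume (Set.nonempty_iff_ne_empty.2 hne)
    have h2 : volume (interior (closure (Set.range v))) = 0 :=
      measure_mono_null interior_subset hvol
    exact h1.ne' h2
  have hA₁o : IsOpen A₁ := hA₀o.inter hco
  have hA₁d : Dense A₁ := hA₀d.inter_of_isOpen_left hcd hA₀o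
  have hφA : ∀ x ∈ A₁, phi α v x = 0 := by
    have hmz1 : m A₁ = 0 := measure_mono_null Set.inter_subset_left hmz
    rw [hm, withDensity_apply _ hA₁o.measurableSet, lintegral_eq_zero_iff hφe] at hmz1
    have h1 : phi α v =ᵐ[volume.restrict A₁] (fun _ => (0 : ℂ)) := by
      filter_upwards [hmz1] with x hx
      simpa using hx
    exact Measure.eqOn_open_of_ae_eq h1 hA₁o
      (fun x hx => (phi_continuousAt hαn hx.2).continuousWithinAt)
      continuousOn_const
  have hφΩ : ∀ x, x ∉ closure (Set.range v) → phi α v x = 0 := by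
    intro x hx
    by_contra hne0
    have h1 : ∀ᶠ y in 𝓝 x, phi α v y ≠ 0 := (phi_continuousAt hαn hx).eventually_ne hne0
    obtain ⟨y, hy1, hy2⟩ := (hA₁d.inter_nhds_nonempty h1)
    exact hy2 (hφA y hy1)
  have hφ0 : ∀ᵐ x : ℂ, phi α v x = 0 := by
    rw [ae_iff]
    refine measure_mono_null ?_ hvol
    intro x hx
    by_contra h
    exact hx (hφΩ x h)
  exact D6_unique hαn hker hφ0 p

end Pool.Agent.H650.TF207
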